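import Pool.Agent.X139.BT.Main2

/-!
# Ranks of multiplicative relations with real exponents that are linearly independent over `ℚ`

Let `x_0, …, x_(d-1)` be real numbers, linearly independent over `ℚ`. We bound by `d (d - 1)` the number
of vectors in `ℒ^d`, orthogonal to `x`, linearly independent over `ℚ`, where `ℒ` is the space of real
linear forms with rational coefficients in `1` and logarithms; one less if `x_p = 1`, `x_q = π` for some
`p ≠ q`.
-/

set_option autoImplicit false

namespace Pool.Agent.X139.JR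

open Finset Complex
open Pool.Agent.W254.HP (LK HypP hypP)

/-- the subfield `ℚ(i)` -/
noncomputable def KI : IntermediateField ℚ ℂ := IntermediateField.adjoin ℚ {Complex.I}

instance : FiniteDimensional ℚ KI := by
  unfold KI
  apply IntermediateField.finiteDimensional_adjoin
  intro x hx
  rw [Set.mem_singleton_iff] at hx
  rw [hx]
  exact Complex.isIntegral_rat_I

/-- the Gaussian numbers -/
def GI : IntermediateField ℚ ℂ where
  carrier := {z | ∃ p q : ℚ, z = p + q * I}
  mul_mem' := by
    rintro _ _ ⟨p, q, rfl⟩ ⟨p', q', rfl⟩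
    refine ⟨p * p' - q * q', p * q' + q * p', ?_⟩
    push_cast
    linear_combination ((q : ℂ) * q') * Complex.I_mul_I
  one_mem' := ⟨1, 0, by simp⟩
  add_mem' := by
    rintro _ _ ⟨p, q, rfl⟩ ⟨p', q', rfl⟩
    exact ⟨p + p', q + q', by push_cast; ring⟩
  zero_mem' := ⟨0, 0, by simp⟩
  algebraMap_mem' r := ⟨r, 0, by simp⟩
  inv_mem' := by
    rintro _ ⟨p, q, rfl⟩
    by_cases h : p = 0 ∧ q = 0
    · refine ⟨0, 0, ?_⟩
      simp [h.1, h.2]
    · have hn : (p ^ 2 + q ^ 2 : ℚ) ≠ 0 := by
        intro h0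
        apply h
        have h1 := sq_nonneg p
        have h2 := sq_nonneg q
        constructor
        · have : p ^ 2 = 0 := by linarith
          exact pow_eq_zero_iff (two_ne_zero) |>.mp this
        · have : q ^ 2 = 0 := by linarith
          exact pow_eq_zero_iff (two_ne_zero) |>.mp this
      refine ⟨p / (p ^ 2 + q ^ 2), -q / (p ^ 2 + q ^ 2), ?_⟩
      have hn' : ((p : ℂ) ^ 2 + (q : ℂ) ^ 2) ≠ 0 := by exact_mod_cast hn
      have hm : ((p : ℂ) + q * I) * (p / (p ^ 2 + q ^ 2) + -q / (p ^ 2 + q ^ 2) * I) = 1 := by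
        field_simp
        linear_combination (-(q : ℂ) ^ 2) * Complex.I_sq
      push_cast
      exact inv_eq_of_mul_eq_one_right hm

theorem rep (z : KI) : ∃ p q : ℚ, (z : ℂ) = p + q * I := by
  have h : KI ≤ GI := by
    unfold KI
    rw [IntermediateField.adjoin_le_iff]
    intro x hx
    rw [Set.mem_singleton_iff] at hx
    rw [hx]
    exact ⟨0, 1, by simp⟩
  exact h z.2

theorem I_mem : I ∈ KI := IntermediateField.subset_adjoin ℚ {I} rfl

theorem zero_of_real {a b : ℝ} (h : (a : ℂ) + b * I = 0) : a = 0 ∧ b = 0 := by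
  have h1 := congrArg Complex.re h
  have h2 := congrArg Complex.im h
  simp at h1 h2
  exact ⟨h1, h2⟩

/-- the real linear forms with rational coefficients in `1` and real logarithms -/
def Lf : Submodule ℚ ℝ where
  carrier := {x | ∃ l q : ℝ, IsAlgebraic ℚ (Real.exp l) ∧ (∃ r : ℚ, q = r) ∧ x = l + q}
  add_mem' := by
    rintro _ _ ⟨l, q, hl, ⟨r, hr⟩, rfl⟩ ⟨l', q', hl', ⟨r', hr'⟩, rfl⟩
    refine ⟨l + l', q + q', ?_, ⟨r + r', by rw [hr, hr']; push_cast; ring⟩, by ring⟩
    rw [Real.exp_add]
    exact hl.mul hl'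
  zero_mem' := ⟨0, 0, by simpa using isAlgebraic_one, ⟨0, by simp⟩, by simp⟩
  smul_mem' := by
    rintro c _ ⟨l, q, hl, ⟨r, hr⟩, rfl⟩
    refine ⟨c * l, c * q, ?_, ⟨c * r, by rw [hr]; push_cast; ring⟩, by rw [Rat.smul_def]; ring⟩
    have h1 : Real.exp (c * l) = Real.exp l ^ (c : ℝ) := by
      rw [← Real.exp_mul, mul_comm]
    rw [h1]
    have h2 : (Real.exp l ^ (c : ℝ)) ^ c.den = Real.exp l ^ c.num := by
      rw [← Real.rpow_natCast, ← Real.rpow_mul (Real.exp_pos l).le, ← Real.rpow_intCast]
      congr 1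
      have h3 := Rat.mul_den_eq_num c
      exact_mod_cast h3
    have h4 : IsAlgebraic ℚ (Real.exp l ^ c.num) := by
      rcases c.num with n | n
      · simpa using hl.pow n
      · rw [zpow_negSucc]
        exact (hl.pow _).inv
    rw [← h2] at h4
    exact IsAlgebraic.of_pow (Nat.pos_of_ne_zero c.den_nz) h4

theorem Lf_LK {x : ℝ} (hx : x ∈ Lf) : (x : ℂ) ∈ LK KI := by
  obtain ⟨l, q, hl, ⟨r, rfl⟩, rfl⟩ := hx
  unfold LK
  push_cast
  refine Submodule.add_mem _ (Submodule.subset_span (Or.inr ?_)) ?_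
  · change IsAlgebraic ℚ (Complex.exp (l : ℂ))
    rw [← Complex.ofReal_exp]
    exact hl.algebraMap (A := ℂ)
  · have : (r : ℂ) = (r : KI) • (1 : ℂ) := by
      rw [Algebra.smul_def, mul_one]
      simp
    rw [this]
    exact Submodule.smul_mem _ _ (Submodule.subset_span (Or.inl rfl))

/-- **Rank bound** -/
theorem rank_le {d l : ℕ} (x : Fin d → ℝ) (hx : LinearIndependent ℚ x) (a : Fin l → Fin d → ℝ)
    (ha : LinearIndependent ℚ a) (hL : ∀ j i, a j i ∈ Lf) (h0 : ∀ j, ∑ i, x i * a j i = 0) :
    l ≤ d * (d - 1) := by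
  refine hypP KI d l (fun i => (x i : ℂ)) (fun i j => (a j i : ℂ)) ?_ (fun i j => Lf_LK (hL j i)) ?_ ?_
  · intro c hc
    choose p q hpq using fun i => rep (c i)
    have h1 : ((∑ i, (p i : ℝ) * x i : ℝ) : ℂ) + ((∑ i, (q i : ℝ) * x i : ℝ) : ℂ) * I = 0 := by
      rw [← hc]
      push_cast
      rw [sum_mul, ← sum_add_distrib]
      refine sum_congr rfl fun i _ => ?_
      rw [hpq i]
      ring
    obtain ⟨h2, h3⟩ := zero_of_real h1
    have h4 := Fintype.linearIndependent_iff.mp hx p (by simpa [Rat.smul_def] using h2)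
    have h5 := Fintype.linearIndependent_iff.mp hx q (by simpa [Rat.smul_def] using h3)
    intro i
    apply Subtype.ext
    rw [hpq i, h4 i, h5 i]
    simp
  · intro j
    have := h0 j
    have h2 : ((∑ i, x i * a j i : ℝ) : ℂ) = 0 := by rw [this]; simp
    push_cast at h2
    exact h2
  · intro c hc
    choose p q hpq using fun j => rep (c j)
    have h1 : ∀ i, ((∑ j, (p j : ℝ) * a j i : ℝ) : ℂ) + ((∑ j, (q j : ℝ) * a j i : ℝ) : ℂ) * I = 0 := by
      intro i
      rw [← hc i]
      push_cast
      rw [sum_mul, ← sum_add_distrib]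
      refine sum_congr rfl fun j _ => ?_
      rw [hpq j]
      ring
    have h4 := Fintype.linearIndependent_iff.mp ha p (by
      funext i
      simpa [Rat.smul_def] using (zero_of_real (h1 i)).1)
    have h5 := Fintype.linearIndependent_iff.mp ha q (by
      funext i
      simpa [Rat.smul_def] using (zero_of_real (h1 i)).2)
    intro j
    apply Subtype.ext
    rw [hpq j, h4 j, h5 j]
    simp

/-- **Rank bound**, if `1` and `π` are among the `x i` -/
theorem rank_le_pi {d l : ℕ} (x : Fin d → ℝ) (hx : LinearIndependent ℚ x) (a : Fin l → Fin d → ℝ)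
    (hL : ∀ j i, a j i ∈ Lf) (h0 : ∀ j, ∑ i, x i * a j i = 0)
    (s t : Fin d) (hs : x s = 1) (ht : x t = Real.pi)
    (hind : ∀ (P : Fin l → ℚ) (q : ℚ), (∀ i, i ≠ s → ∑ j, (P j : ℝ) * a j i = if i = t then (q : ℝ) else 0) →
      ∀ j, P j = 0) :
    l + 1 ≤ d * (d - 1) := by
  have hst : s ≠ t := by
    intro h
    rw [h, ht] at hs
    have := Real.pi_gt_three
    linarith
  let w : Fin d → ℝ := fun i => if i = s then -Real.pi else if i = t then 1 else 0
  have hwt : w t = 1 := by simp [w, hst.symm]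
  have hwx : ∑ i, x i * w i = 0 := by
    have h1 : ∀ i, x i * w i = (if i = s then -Real.pi else 0) + (if i = t then Real.pi else 0) := by
      intro i
      by_cases his : i = s
      · subst his
        simp [w, hs, hst]
      · by_cases hit : i = t
        · subst hit
          simp [w, ht, his]
        · simp [w, his, hit]
    rw [sum_congr rfl fun i _ => h1 i, sum_add_distrib]
    simp
  refine hypP KI d (l + 1) (fun i => (x i : ℂ))
    (fun i j => (Fin.cons ((w i : ℂ) * I) (fun j => (a j i : ℂ)) : Fin (l + 1) → ℂ) j) ?_ ?_ ?_ ?_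
  · intro c hc
    choose p q hpq using fun i => rep (c i)
    have h1 : ((∑ i, (p i : ℝ) * x i : ℝ) : ℂ) + ((∑ i, (q i : ℝ) * x i : ℝ) : ℂ) * I = 0 := by
      rw [← hc]
      push_cast
      rw [sum_mul, ← sum_add_distrib]
      refine sum_congr rfl fun i _ => ?_
      rw [hpq i]
      ring
    obtain ⟨h2, h3⟩ := zero_of_real h1
    have h4 := Fintype.linearIndependent_iff.mp hx p (by simpa [Rat.smul_def] using h2)
    have h5 := Fintype.linearIndependent_iff.mp hx q (by simpa [Rat.smul_def] using h3)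
    intro i
    apply Subtype.ext
    rw [hpq i, h4 i, h5 i]
    simp
  · intro i j
    refine Fin.cases ?_ (fun j => ?_) j
    · rw [Fin.cons_zero]
      by_cases his : i = s
      · have hw : (w i : ℂ) * I = -(Real.pi * I) := by
          simp [w, his]
        rw [hw]
        unfold LK
        refine Submodule.neg_mem _ (Submodule.subset_span (Or.inr ?_))
        change IsAlgebraic ℚ (Complex.exp (Real.pi * I))
        rw [Complex.exp_pi_mul_I]
        exact isAlgebraic_one.neg
      · by_cases hit : i = t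
        · have hw : (w i : ℂ) * I = (⟨I, I_mem⟩ : KI) • (1 : ℂ) := by
            rw [Algebra.smul_def, mul_one, hit, hwt]
            simp
          rw [hw]
          exact Submodule.smul_mem _ _ (Submodule.subset_span (Or.inl rfl))
        · have hw : (w i : ℂ) * I = 0 := by
            simp [w, his, hit]
          rw [hw]
          exact Submodule.zero_mem _
    · rw [Fin.cons_succ]
      exact Lf_LK (hL j i)
  · intro j
    refine Fin.cases ?_ (fun j => ?_) j
    · simp only [Fin.cons_zero]
      have h2 : ((∑ i, x i * w i : ℝ) : ℂ) * I = 0 := by rw [hwx]; simp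
      rw [← h2]
      push_cast
      rw [sum_mul]
      exact sum_congr rfl fun i _ => by ring
    · simp only [Fin.cons_succ]
      have h2 : ((∑ i, x i * a j i : ℝ) : ℂ) = 0 := by rw [h0 j]; simp
      push_cast at h2
      exact h2
  · intro c hc
    choose p q hpq using fun j => rep (c j)
    have h1 : ∀ i, ((∑ j, (p (Fin.succ j) : ℝ) * a j i - (q 0 : ℝ) * w i : ℝ) : ℂ) +
        ((∑ j, (q (Fin.succ j) : ℝ) * a j i + (p 0 : ℝ) * w i : ℝ) : ℂ) * I = 0 := by
      intro i
      rw [← hc i, Fin.sum_univ_succ]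
      simp only [Fin.cons_zero, Fin.cons_succ]
      have h2 : ∑ j : Fin l, (c (Fin.succ j) : ℂ) * (a j i : ℂ) =
          ∑ j : Fin l, (p (Fin.succ j) : ℂ) * a j i + (∑ j : Fin l, (q (Fin.succ j) : ℂ) * a j i) * I := by
        rw [sum_mul, ← sum_add_distrib]
        refine sum_congr rfl fun j _ => ?_
        rw [hpq (Fin.succ j)]
        ring
      rw [h2, hpq 0]
      push_cast
      linear_combination (-((q 0 : ℂ) * w i)) * Complex.I_mul_I
    have key : ∀ (P : Fin l → ℚ) (r : ℚ), (∀ i, ∑ j, (P j : ℝ) * a j i = (r : ℝ) * w i) →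
        (∀ j, P j = 0) ∧ r = 0 := by
      intro P r h
      have h3 := hind P r (fun i his => by
        rw [h i]
        simp [w, his])
      refine ⟨h3, ?_⟩
      have h4 := h t
      rw [hwt, mul_one, sum_eq_zero (fun j _ => by rw [h3 j]; simp)] at h4
      exact_mod_cast h4.symm
    obtain ⟨h6, h7⟩ := key (fun j => p (Fin.succ j)) (q 0) (fun i => by
      have := (zero_of_real (h1 i)).1
      linarith)
    obtain ⟨h8, h9⟩ := key (fun j => q (Fin.succ j)) (-p 0) (fun i => by
      have := (zero_of_real (h1 i)).2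
      push_cast
      linarith)
    intro j
    apply Subtype.ext
    rw [hpq j]
    refine Fin.cases ?_ (fun j => ?_) j
    · rw [h7, neg_eq_zero.mp h9]
      simp
    · rw [h6 j, h8 j]
      simp

end Pool.Agent.X139.JR
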